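import Mathlib

/-!
Equistable graphs: basic definitions and two general facts.

* a graph all of whose edges lie in strong cliques is equistable;
* an equistable graph satisfies the triangle condition.
-/

namespace Pool.Agent.Lib.MP_117856_lc

open Finset

/-- A set of vertices is stable if its vertices are pairwise non-adjacent. -/
def Stable {V : Type*} (G : SimpleGraph V) (S : Finset V) : Prop :=
  ∀ u ∈ S, ∀ v ∈ S, ¬ G.Adj u v

/-- A stable set is maximal if no other stable set properly contains it. -/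
def MaximalStable {V : Type*} (G : SimpleGraph V) (S : Finset V) : Prop :=
  Stable G S ∧ ∀ T : Finset V, Stable G T → ¬ S ⊂ T

/-- A finite graph is equistable if some positive target `t` and some weight function
`w : V → ℕ` satisfy: the maximal stable sets are exactly the vertex sets of weight `t`. -/
def Equistable {V : Type*} [Fintype V] (G : SimpleGraph V) : Prop :=
  ∃ (t : ℕ) (w : V → ℕ), 0 < t ∧
    ∀ S : Finset V, MaximalStable G S ↔ ∑ v ∈ S, w v = t

section General

variable {V : Type*} [Fintype V] {G : SimpleGraph V}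

theorem Stable.exists_maximal {S : Finset V} (hS : Stable G S) :
    ∃ T : Finset V, MaximalStable G T ∧ S ⊆ T := by
  classical
  have hfin : Set.Finite {T : Finset V | Stable G T ∧ S ⊆ T} := Set.toFinite _
  obtain ⟨T, hT⟩ := hfin.exists_maximal ⟨S, hS, Subset.refl S⟩
  refine ⟨T, ⟨hT.prop.1, ?_⟩, hT.prop.2⟩
  intro T' hT' hlt
  exact hT.not_gt ⟨hT', hT.prop.2.trans hlt.subset⟩ hlt

theorem MaximalStable.mem_of_forall {S : Finset V} (hS : MaximalStable G S) {x : V}
    (h : ∀ s ∈ S, ¬ G.Adj x s) : x ∈ S := by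
  classical
  by_contra hx
  refine hS.2 (insert x S) ?_ (Finset.ssubset_insert hx)
  intro u hu v hv
  rw [Finset.mem_insert] at hu hv
  rcases hu with rfl | hu
  · rcases hv with rfl | hv
    · exact G.loopless.irrefl _
    · exact h v hv
  · rcases hv with rfl | hv
    · exact fun hadj => h u hu hadj.symm
    · exact hS.1 u hu v hv

theorem MaximalStable.exists_adj {S : Finset V} (hS : MaximalStable G S) {x : V}
    (hx : x ∉ S) : ∃ s ∈ S, G.Adj x s := by
  by_contra hcon
  push Not at hcon
  exact hx (hS.mem_of_forall hcon)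

/-- The triangle condition: every equistable graph is a triangle graph. -/
theorem Equistable.triangle (hG : Equistable G) {S : Finset V} (hS : MaximalStable G S)
    {u v : V} (hu : u ∉ S) (hv : v ∉ S) (huv : G.Adj u v) :
    ∃ s ∈ S, G.Adj u s ∧ G.Adj v s := by
  classical
  by_contra hcon
  push Not at hcon
  obtain ⟨t, w, ht, hw⟩ := hG
  -- the general construction
  have key : ∀ x : V, x ∉ S → ∃ R : Finset V, x ∈ R ∧ (∀ r ∈ R, r ∉ S) ∧
      (∀ r ∈ R, ∀ s ∈ S, G.Adj r s → G.Adj x s) ∧
      ∑ r ∈ R, w r = ∑ s ∈ S.filter (fun s => G.Adj x s), w s := by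
    intro x hx
    have hst : Stable G (insert x (S.filter (fun s => ¬ G.Adj x s))) := by
      intro a ha b hb
      rw [Finset.mem_insert, Finset.mem_filter] at ha hb
      rcases ha with rfl | ha
      · rcases hb with rfl | hb
        · exact G.loopless.irrefl _
        · exact hb.2
      · rcases hb with rfl | hb
        · exact fun h => ha.2 h.symm
        · exact hS.1 a ha.1 b hb.1
    obtain ⟨T, hT, hsub⟩ := hst.exists_maximal
    have hxT : x ∈ T := hsub (Finset.mem_insert_self _ _)
    have hinter : T ∩ S = S.filter (fun s => ¬ G.Adj x s) := by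
      ext s
      constructor
      · intro hs
        rw [Finset.mem_inter] at hs
        rw [Finset.mem_filter]
        exact ⟨hs.2, fun hadj => hT.1 x hxT s hs.1 hadj⟩
      · intro hs
        rw [Finset.mem_inter]
        exact ⟨hsub (Finset.mem_insert_of_mem hs), (Finset.mem_filter.1 hs).1⟩
    refine ⟨T \ S, ?_, ?_, ?_, ?_⟩
    · exact Finset.mem_sdiff.2 ⟨hxT, hx⟩
    · intro r hr
      exact (Finset.mem_sdiff.1 hr).2
    · intro r hr s hs hadj
      by_contra hns
      have hsT : s ∈ T := hsub (Finset.mem_insert_of_mem (Finset.mem_filter.2 ⟨hs, hns⟩))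
      exact hT.1 r (Finset.mem_sdiff.1 hr).1 s hsT hadj
    · have h1 : ∑ r ∈ T \ S, w r + ∑ r ∈ T ∩ S, w r = ∑ r ∈ T, w r := by
        have := Finset.sum_sdiff (f := w) (Finset.inter_subset_left (s₁ := T) (s₂ := S))
        rw [Finset.sdiff_inter_self_left] at this
        exact this
      have h2 := Finset.sum_filter_add_sum_filter_not S (fun s => G.Adj x s) w
      rw [(hw T).1 hT, hinter] at h1
      rw [(hw S).1 hS] at h2
      omega
  obtain ⟨Ru, huR, hRuS, hRuN, hRuw⟩ := key u hu
  obtain ⟨Rv, hvR, hRvS, hRvN, hRvw⟩ := key v hv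
  have hdisj : Disjoint Ru Rv := by
    rw [Finset.disjoint_left]
    intro r hru hrv
    obtain ⟨s, hs, hadj⟩ := hS.exists_adj (hRuS r hru)
    exact hcon s hs (hRuN r hru s hs hadj) (hRvN r hrv s hs hadj)
  set C : Finset V := S.filter (fun s => ¬ G.Adj u s ∧ ¬ G.Adj v s) with hC
  have hdisj2 : Disjoint (Ru ∪ Rv) C := by
    rw [Finset.disjoint_left]
    intro r hr hrC
    have hrS : r ∈ S := (Finset.mem_filter.1 hrC).1
    rcases Finset.mem_union.1 hr with h | h
    · exact hRuS r h hrS
    · exact hRvS r h hrS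
  have hsumS : ∑ s ∈ S.filter (fun s => G.Adj u s), w s +
      ∑ s ∈ S.filter (fun s => G.Adj v s), w s + ∑ s ∈ C, w s = ∑ s ∈ S, w s := by
    have h2 := Finset.sum_filter_add_sum_filter_not S (fun s => G.Adj u s) w
    have h3 := Finset.sum_filter_add_sum_filter_not (S.filter (fun s => ¬ G.Adj u s))
      (fun s => G.Adj v s) w
    rw [Finset.filter_filter, Finset.filter_filter] at h3
    have h4 : S.filter (fun s => ¬ G.Adj u s ∧ G.Adj v s) = S.filter (fun s => G.Adj v s) := by
      apply Finset.filter_congr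
      intro s hs
      constructor
      · exact fun h => h.2
      · exact fun h => ⟨fun h' => hcon s hs h' h, h⟩
    rw [h4] at h3
    rw [hC]
    omega
  have hT : ∑ x ∈ (Ru ∪ Rv) ∪ C, w x = t := by
    rw [Finset.sum_union hdisj2, Finset.sum_union hdisj, hRuw, hRvw, hsumS]
    exact (hw S).1 hS
  have hTmax := (hw _).2 hT
  exact hTmax.1 u (by simp [huR]) v (by simp [hvR]) huv

/-- Uniqueness of expansions in base `N`, with digits at most `N - 1`. -/
theorem digits_unique {m : ℕ} {N : ℕ} (a b : Fin m → ℕ) (ha : ∀ i, a i < N) (hb : ∀ i, b i < N)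
    (h : ∑ i, a i * N ^ (i : ℕ) = ∑ i, b i * N ^ (i : ℕ)) : a = b := by
  induction m with
  | zero => exact Subsingleton.elim _ _
  | succ m ih =>
    rw [Fin.sum_univ_succ, Fin.sum_univ_succ] at h
    have hN : 0 < N := lt_of_le_of_lt (Nat.zero_le _) (ha 0)
    have e1 : ∀ c : Fin (m+1) → ℕ, ∑ i : Fin m, c i.succ * N ^ ((i.succ : Fin (m+1)) : ℕ) =
        N * ∑ i : Fin m, c i.succ * N ^ (i : ℕ) := by
      intro c
      rw [Finset.mul_sum]
      apply Finset.sum_congr rfl
      intro i _
      rw [Fin.val_succ, pow_succ]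
      ring
    rw [e1, e1] at h
    simp only [Fin.val_zero, pow_zero, mul_one] at h
    have h0 : a 0 = b 0 := by
      have := congrArg (· % N) h
      simpa [Nat.add_mul_mod_self_left, Nat.mod_eq_of_lt (ha 0), Nat.mod_eq_of_lt (hb 0)] using this
    have h1 : ∑ i : Fin m, a i.succ * N ^ (i : ℕ) = ∑ i : Fin m, b i.succ * N ^ (i : ℕ) := by
      rw [h0] at h
      exact Nat.eq_of_mul_eq_mul_left hN (Nat.add_left_cancel h)
    have h2 := ih (fun i => a i.succ) (fun i => b i.succ) (fun i => ha _) (fun i => hb _) h1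
    funext i
    refine Fin.cases h0 (fun j => ?_) i
    exact congrFun h2 j

/-- If there is a family of cliques such that every vertex and every edge lies in a member and
every member meets every maximal stable set, then the graph is equistable. -/
theorem equistable_of_strong [Nonempty V] (F : Set (Finset V))
    (hclique : ∀ Q ∈ F, ∀ u ∈ Q, ∀ v ∈ Q, u ≠ v → G.Adj u v)
    (hvert : ∀ v, ∃ Q ∈ F, v ∈ Q)
    (hedge : ∀ u v, G.Adj u v → ∃ Q ∈ F, u ∈ Q ∧ v ∈ Q)
    (hstrong : ∀ Q ∈ F, ∀ S, MaximalStable G S → ∃ s ∈ S, s ∈ Q) :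
    Equistable G := by
  classical
  have hfin : F.Finite := Set.toFinite F
  obtain ⟨m, ⟨e⟩⟩ : ∃ m, Nonempty (F ≃ Fin m) := by
    have := hfin.fintype
    exact ⟨Fintype.card F, ⟨Fintype.equivFin F⟩⟩
  set N := Fintype.card V + 1 with hN
  let Q : Fin m → Finset V := fun i => (e.symm i : Finset V)
  have hQ : ∀ i, Q i ∈ F := fun i => (e.symm i).2
  have hQsurj : ∀ X ∈ F, ∃ i, Q i = X := by
    intro X hX
    exact ⟨e ⟨X, hX⟩, by simp [Q]⟩
  let w : V → ℕ := fun v => ∑ i : Fin m, if v ∈ Q i then N ^ (i : ℕ) else 0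
  have hw : ∀ S : Finset V, ∑ v ∈ S, w v = ∑ i : Fin m, (S ∩ Q i).card * N ^ (i : ℕ) := by
    intro S
    simp only [w]
    rw [Finset.sum_comm]
    apply Finset.sum_congr rfl
    intro i _
    rw [← Finset.sum_filter, Finset.sum_const, smul_eq_mul, Finset.filter_mem_eq_inter]
  have hm : 0 < m := by
    obtain ⟨v⟩ := ‹Nonempty V›
    obtain ⟨X, hX, -⟩ := hvert v
    exact lt_of_le_of_lt (Nat.zero_le _) (e ⟨X, hX⟩).2
  have hNpos : 1 < N := by
    have := Fintype.card_pos (α := V)
    omega
  refine ⟨∑ i : Fin m, 1 * N ^ (i : ℕ), w, ?_, ?_⟩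
  · apply Finset.sum_pos
    · intro i _
      positivity
    · exact ⟨⟨0, hm⟩, Finset.mem_univ _⟩
  · intro S
    rw [hw]
    constructor
    · intro hS
      apply Finset.sum_congr rfl
      intro i _
      congr 1
      apply le_antisymm
      · rw [Finset.card_le_one]
        intro a ha b hb
        by_contra hab
        exact hS.1 a (Finset.mem_inter.1 ha).1 b (Finset.mem_inter.1 hb).1
          (hclique _ (hQ i) a (Finset.mem_inter.1 ha).2 b (Finset.mem_inter.1 hb).2 hab)
      · obtain ⟨s, hs, hsQ⟩ := hstrong _ (hQ i) S hS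
        exact Finset.card_pos.2 ⟨s, Finset.mem_inter.2 ⟨hs, hsQ⟩⟩
    · intro hsum
      have hcard : ∀ i, (S ∩ Q i).card = 1 := by
        have := digits_unique (m := m) (N := N) (fun i => (S ∩ Q i).card) (fun _ => 1)
          (fun i => by
            have : (S ∩ Q i).card ≤ Fintype.card V := Finset.card_le_univ _
            omega) (fun _ => hNpos) hsum
        exact fun i => congrFun this i
      constructor
      · intro u hu v hv hadj
        obtain ⟨X, hX, huX, hvX⟩ := hedge u v hadj
        obtain ⟨i, rfl⟩ := hQsurj X hX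
        have h1 := hcard i
        rw [Finset.card_eq_one] at h1
        obtain ⟨x, hx⟩ := h1
        have hux : u ∈ S ∩ Q i := Finset.mem_inter.2 ⟨hu, huX⟩
        have hvx : v ∈ S ∩ Q i := Finset.mem_inter.2 ⟨hv, hvX⟩
        rw [hx, Finset.mem_singleton] at hux hvx
        rw [hux, hvx] at hadj
        exact G.loopless.irrefl _ hadj
      · intro T hT hlt
        obtain ⟨v, hvT, hvS⟩ := Finset.exists_of_ssubset hlt
        obtain ⟨X, hX, hvX⟩ := hvert v
        obtain ⟨i, rfl⟩ := hQsurj X hX
        have h1 := hcard i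
        obtain ⟨s, hs⟩ := Finset.card_pos.1 (by rw [h1]; exact Nat.one_pos)
        rw [Finset.mem_inter] at hs
        refine hT v hvT s (hlt.subset hs.1) (hclique _ (hQ i) v hvX s hs.2 ?_)
        rintro rfl
        exact hvS hs.1

end General

end Pool.Agent.Lib.MP_117856_lc
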