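import Mathlib
import Pool.Agent.Lib.MP_117856_lc.Basic

/-!
The graph of a family of boxes.

Let `I` be a finite set of variables with values in a finite set `D`, and let `R j i ⊆ D` be
nonempty sets; the box of `j` consists of all assignments `A` with `A i ∈ R j i` for all `i`.
The graph `boxGraph R` has one vertex for every event `x_i = b`, and one for every event
`j is chosen and x_i = b`.  It is equistable iff the boxes cover all assignments (given two boxes
that constrain one variable each).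
-/

namespace Pool.Agent.Lib.MP_117856_lc

open Finset

/-- Adjacency of the graph of a family of boxes. -/
def boxAdj {I D J : Type*} (R : J → I → D → Prop) :
    (I × D) ⊕ (J × I × D) → (I × D) ⊕ (J × I × D) → Prop
  | Sum.inl (i, b), Sum.inl (i', b') => i = i' ∧ b ≠ b'
  | Sum.inl (i, b), Sum.inr (j, i', b') => R j i' b' ∧ (¬ R j i b ∨ (i = i' ∧ b ≠ b'))
  | Sum.inr (j, i', b'), Sum.inl (i, b) => R j i' b' ∧ (¬ R j i b ∨ (i = i' ∧ b ≠ b'))
  | Sum.inr (j, i, b), Sum.inr (j', i', b') =>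
      R j i b ∧ R j' i' b' ∧ (j ≠ j' ∨ (i = i' ∧ b ≠ b'))

/-- The graph of a family of boxes. -/
def boxGraph {I D J : Type*} (R : J → I → D → Prop) : SimpleGraph ((I × D) ⊕ (J × I × D)) where
  Adj := boxAdj R
  symm := by
    constructor
    rintro (⟨i, b⟩ | ⟨j, i, b⟩) (⟨i', b'⟩ | ⟨j', i', b'⟩) h
    · exact ⟨h.1.symm, h.2.symm⟩
    · exact h
    · exact h
    · exact ⟨h.2.1, h.1, h.2.2.imp Ne.symm (fun h => ⟨h.1.symm, h.2.symm⟩)⟩
  loopless := by
    constructor
    rintro (⟨i, b⟩ | ⟨j, i, b⟩) h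
    · exact h.2 rfl
    · rcases h.2.2 with h | h
      · exact h rfl
      · exact h.2 rfl

section

variable {I D J : Type*} [Fintype I] [Fintype D] [Fintype J] (R : J → I → D → Prop)

/-- If the boxes cover all assignments then the graph is equistable. -/
theorem equistable_boxGraph_of_cover [Nonempty I] [Nonempty D]
    (hne : ∀ j i, ∃ b, R j i b)
    (hcover : ∀ A : I → D, ∃ j, ∀ i, R j i (A i)) :
    Equistable (boxGraph R) := by
  classical
  -- structure of maximal stable sets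
  have hstruct : ∀ S, MaximalStable (boxGraph R) S → ∃ (A : I → D) (j : J),
      (∀ i, R j i (A i)) ∧ (∀ i, Sum.inl (i, A i) ∈ S) ∧ (∀ i, Sum.inr (j, i, A i) ∈ S) := by
    intro S hS
    by_cases hcase : ∃ j i b, R j i b ∧ Sum.inr (j, i, b) ∈ S
    · obtain ⟨j0, i0, b0, hR0, hmem0⟩ := hcase
      have hinl : ∀ i b, Sum.inl (i, b) ∈ S → R j0 i b := by
        intro i b hib
        by_contra hnot
        exact hS.1 _ hib _ hmem0 ⟨hR0, Or.inl hnot⟩
      have hinr : ∀ j i b, Sum.inr (j, i, b) ∈ S → R j i b → j = j0 := by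
        intro j i b hjib hR
        by_contra hnot
        exact hS.1 _ hjib _ hmem0 ⟨hR, hR0, Or.inl hnot⟩
      have hex : ∀ i, ∃ b, R j0 i b ∧ Sum.inl (i, b) ∈ S ∧ Sum.inr (j0, i, b) ∈ S := by
        intro i
        by_cases h1 : ∃ b, Sum.inl (i, b) ∈ S
        · obtain ⟨b, hb⟩ := h1
          refine ⟨b, hinl i b hb, hb, ?_⟩
          apply hS.mem_of_forall
          rintro (⟨i', b'⟩ | ⟨j', i', b'⟩) hmem hadj
          · rcases hadj.2 with h | h
            · exact h (hinl _ _ hmem)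
            · obtain ⟨rfl, hbb⟩ := h
              exact hS.1 _ hmem _ hb ⟨rfl, hbb⟩
          · obtain ⟨h1, h2, h3⟩ := hadj
            obtain rfl := hinr _ _ _ hmem h2
            rcases h3 with h | h
            · exact h rfl
            · obtain ⟨rfl, hbb⟩ := h
              exact hS.1 _ hmem _ hb ⟨h2, Or.inr ⟨rfl, hbb⟩⟩
        · by_cases h2 : ∃ b, R j0 i b ∧ Sum.inr (j0, i, b) ∈ S
          · obtain ⟨b, hRb, hb⟩ := h2
            refine absurd ⟨b, ?_⟩ h1
            apply hS.mem_of_forall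
            rintro (⟨i', b'⟩ | ⟨j', i', b'⟩) hmem hadj
            · obtain ⟨rfl, -⟩ := hadj
              exact h1 ⟨_, hmem⟩
            · obtain ⟨h4, h5⟩ := hadj
              obtain rfl := hinr _ _ _ hmem h4
              rcases h5 with h | h
              · exact h hRb
              · obtain ⟨rfl, hbb⟩ := h
                exact hS.1 _ hmem _ hb ⟨h4, hRb, Or.inr ⟨rfl, fun h => hbb h.symm⟩⟩
          · obtain ⟨b, hRb⟩ := hne j0 i
            refine absurd ⟨b, hRb, ?_⟩ h2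
            apply hS.mem_of_forall
            rintro (⟨i', b'⟩ | ⟨j', i', b'⟩) hmem hadj
            · rcases hadj.2 with h | h
              · exact h (hinl _ _ hmem)
              · obtain ⟨rfl, -⟩ := h
                exact h1 ⟨_, hmem⟩
            · obtain ⟨h4, h5, h6⟩ := hadj
              obtain rfl := hinr _ _ _ hmem h5
              rcases h6 with h | h
              · exact h rfl
              · obtain ⟨rfl, -⟩ := h
                exact h2 ⟨_, h5, hmem⟩
      choose A hA using hex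
      exact ⟨A, j0, fun i => (hA i).1, fun i => (hA i).2.1, fun i => (hA i).2.2⟩
    · exfalso
      have hno : ∀ j i b, R j i b → Sum.inr (j, i, b) ∉ S := fun j i b h1 h2 =>
        hcase ⟨j, i, b, h1, h2⟩
      have hex : ∀ i, ∃ b, Sum.inl (i, b) ∈ S := by
        intro i
        by_contra hnone
        obtain ⟨b⟩ := ‹Nonempty D›
        apply hnone
        refine ⟨b, ?_⟩
        apply hS.mem_of_forall
        rintro (⟨i', b'⟩ | ⟨j', i', b'⟩) hmem hadj
        · obtain ⟨rfl, -⟩ := hadj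
          exact hnone ⟨_, hmem⟩
        · exact hno _ _ _ hadj.1 hmem
      choose A hA using hex
      obtain ⟨j, hj⟩ := hcover A
      obtain ⟨i⟩ := ‹Nonempty I›
      refine hno j i (A i) (hj i) ?_
      apply hS.mem_of_forall
      rintro (⟨i', b'⟩ | ⟨j', i', b'⟩) hmem hadj
      · have hb' : b' = A i' := by
          by_contra hne'
          exact hS.1 _ hmem _ (hA i') ⟨rfl, hne'⟩
        subst hb'
        rcases hadj.2 with h | h
        · exact h (hj _)
        · obtain ⟨rfl, h⟩ := h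
          exact h rfl
      · exact hno _ _ _ hadj.2.1 hmem
  -- the family of strong cliques
  let Q1 : I → Finset ((I × D) ⊕ (J × I × D)) := fun i =>
    Finset.univ.filter (fun v => ∃ b, v = Sum.inl (i, b))
  let Q2 : (J → I) → Finset ((I × D) ⊕ (J × I × D)) := fun c =>
    Finset.univ.filter (fun v => ∃ j b, R j (c j) b ∧ v = Sum.inr (j, c j, b))
  let Q3 : I → D → (J → I) → Finset ((I × D) ⊕ (J × I × D)) := fun i b c =>
    Finset.univ.filter (fun v => v = Sum.inl (i, b) ∨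
      (∃ j b', ¬ R j i b ∧ R j (c j) b' ∧ v = Sum.inr (j, c j, b')) ∨
      (∃ j b', R j i b ∧ R j i b' ∧ b ≠ b' ∧ v = Sum.inr (j, i, b')))
  let Q4 : J → I → D → Finset ((I × D) ⊕ (J × I × D)) := fun j i b => {Sum.inr (j, i, b)}
  have : Nonempty ((I × D) ⊕ (J × I × D)) := by
    obtain ⟨i⟩ := ‹Nonempty I›
    obtain ⟨b⟩ := ‹Nonempty D›
    exact ⟨Sum.inl (i, b)⟩
  refine equistable_of_strong
    ({Q | ∃ i, Q = Q1 i} ∪ {Q | ∃ c, Q = Q2 c} ∪ {Q | ∃ i b c, Q = Q3 i b c} ∪
      {Q | ∃ j i b, ¬ R j i b ∧ Q = Q4 j i b}) ?_ ?_ ?_ ?_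
  · -- cliques
    rintro Q (((⟨i, rfl⟩ | ⟨c, rfl⟩) | ⟨i, b, c, rfl⟩) | ⟨j, i, b, -, rfl⟩) u hu v hv huv
    · simp only [Q1, Finset.mem_filter, Finset.mem_univ, true_and] at hu hv
      obtain ⟨b, rfl⟩ := hu
      obtain ⟨b', rfl⟩ := hv
      exact ⟨rfl, fun h => huv (by rw [h])⟩
    · simp only [Q2, Finset.mem_filter, Finset.mem_univ, true_and] at hu hv
      obtain ⟨j, b, hR, rfl⟩ := hu
      obtain ⟨j', b', hR', rfl⟩ := hv
      refine ⟨hR, hR', ?_⟩
      by_cases hjj : j = j'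
      · subst hjj
        exact Or.inr ⟨rfl, fun h => huv (by rw [h])⟩
      · exact Or.inl hjj
    · simp only [Q3, Finset.mem_filter, Finset.mem_univ, true_and] at hu hv
      rcases hu with rfl | ⟨j, b1, h1, h2, rfl⟩ | ⟨j, b1, h1, h2, h3, rfl⟩
      · rcases hv with rfl | ⟨j', b1', h1', h2', rfl⟩ | ⟨j', b1', h1', h2', h3', rfl⟩
        · exact absurd rfl huv
        · exact ⟨h2', Or.inl h1'⟩
        · exact ⟨h2', Or.inr ⟨rfl, h3'⟩⟩
      · rcases hv with rfl | ⟨j', b1', h1', h2', rfl⟩ | ⟨j', b1', h1', h2', h3', rfl⟩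
        · exact ⟨h2, Or.inl h1⟩
        · refine ⟨h2, h2', ?_⟩
          by_cases hjj : j = j'
          · subst hjj
            exact Or.inr ⟨rfl, fun h => huv (by rw [h])⟩
          · exact Or.inl hjj
        · refine ⟨h2, h2', Or.inl ?_⟩
          rintro rfl
          exact h1 h1'
      · rcases hv with rfl | ⟨j', b1', h1', h2', rfl⟩ | ⟨j', b1', h1', h2', h3', rfl⟩
        · exact ⟨h2, Or.inr ⟨rfl, h3⟩⟩
        · refine ⟨h2, h2', Or.inl ?_⟩
          rintro rfl
          exact h1' h1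
        · refine ⟨h2, h2', ?_⟩
          by_cases hjj : j = j'
          · subst hjj
            exact Or.inr ⟨rfl, fun h => huv (by rw [h])⟩
          · exact Or.inl hjj
    · simp only [Q4, Finset.mem_singleton] at hu hv
      exact absurd (hu.trans hv.symm) huv
  · -- vertices
    rintro (⟨i, b⟩ | ⟨j, i, b⟩)
    · exact ⟨Q1 i, Or.inl (Or.inl (Or.inl ⟨i, rfl⟩)), by simp [Q1]⟩
    · by_cases hR : R j i b
      · exact ⟨Q2 (fun _ => i), Or.inl (Or.inl (Or.inr ⟨_, rfl⟩)), by simp [Q2, hR]⟩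
      · exact ⟨Q4 j i b, Or.inr ⟨j, i, b, hR, rfl⟩, by simp [Q4]⟩
  · -- edges
    have hmixed : ∀ i b j i' b', boxAdj R (Sum.inl (i, b)) (Sum.inr (j, i', b')) →
        ∃ c, Sum.inl (i, b) ∈ Q3 i b c ∧ Sum.inr (j, i', b') ∈ Q3 i b c := by
      rintro i b j i' b' ⟨h1, h2⟩
      refine ⟨fun _ => i', by simp [Q3], ?_⟩
      simp only [Q3, Finset.mem_filter, Finset.mem_univ, true_and]
      by_cases h3 : R j i b
      · rcases h2 with h2 | ⟨rfl, h2⟩
        · exact absurd h3 h2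
        · exact Or.inr (Or.inr ⟨j, b', h3, h1, h2, rfl⟩)
      · exact Or.inr (Or.inl ⟨j, b', h3, h1, rfl⟩)
    rintro (⟨i, b⟩ | ⟨j, i, b⟩) (⟨i', b'⟩ | ⟨j', i', b'⟩) hadj
    · obtain ⟨rfl, -⟩ := hadj
      exact ⟨Q1 i, Or.inl (Or.inl (Or.inl ⟨i, rfl⟩)), by simp [Q1], by simp [Q1]⟩
    · obtain ⟨c, h1, h2⟩ := hmixed i b j' i' b' hadj
      exact ⟨Q3 i b c, Or.inl (Or.inr ⟨i, b, c, rfl⟩), h1, h2⟩
    · obtain ⟨c, h1, h2⟩ := hmixed i' b' j i b hadj
      exact ⟨Q3 i' b' c, Or.inl (Or.inr ⟨i', b', c, rfl⟩), h2, h1⟩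
    · obtain ⟨h1, h2, h3⟩ := hadj
      by_cases hjj : j = j'
      · subst hjj
        rcases h3 with h3 | ⟨rfl, -⟩
        · exact absurd rfl h3
        · exact ⟨Q2 (fun _ => i), Or.inl (Or.inl (Or.inr ⟨_, rfl⟩)), by simp [Q2, h1],
            by simp [Q2, h2]⟩
      · refine ⟨Q2 (fun k => if k = j then i else i'), Or.inl (Or.inl (Or.inr ⟨_, rfl⟩)), ?_, ?_⟩
        · simp only [Q2, Finset.mem_filter, Finset.mem_univ, true_and]
          exact ⟨j, b, by simpa using h1, by simp⟩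
        · simp only [Q2, Finset.mem_filter, Finset.mem_univ, true_and]
          have hne' : ¬ j' = j := fun h => hjj h.symm
          exact ⟨j', b', by simpa [hne'] using h2, by simp [hne']⟩
  · -- strongness
    rintro Q (((⟨i, rfl⟩ | ⟨c, rfl⟩) | ⟨i, b, c, rfl⟩) | ⟨j, i, b, hR, rfl⟩) S hS
    · obtain ⟨A, j, hj, h1, h2⟩ := hstruct S hS
      exact ⟨_, h1 i, by simp [Q1]⟩
    · obtain ⟨A, j, hj, h1, h2⟩ := hstruct S hS
      refine ⟨_, h2 (c j), ?_⟩
      simp only [Q2, Finset.mem_filter, Finset.mem_univ, true_and]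
      exact ⟨j, A (c j), hj _, rfl⟩
    · obtain ⟨A, j, hj, h1, h2⟩ := hstruct S hS
      by_cases hb : b = A i
      · refine ⟨_, h1 i, ?_⟩
        simp only [Q3, Finset.mem_filter, Finset.mem_univ, true_and]
        exact Or.inl (by rw [hb])
      · by_cases hR : R j i b
        · refine ⟨_, h2 i, ?_⟩
          simp only [Q3, Finset.mem_filter, Finset.mem_univ, true_and]
          exact Or.inr (Or.inr ⟨j, A i, hR, hj i, hb, rfl⟩)
        · refine ⟨_, h2 (c j), ?_⟩
          simp only [Q3, Finset.mem_filter, Finset.mem_univ, true_and]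
          exact Or.inr (Or.inl ⟨j, A (c j), hR, hj _, rfl⟩)
    · refine ⟨Sum.inr (j, i, b), ?_, by simp [Q4]⟩
      apply hS.mem_of_forall
      rintro (⟨i', b'⟩ | ⟨j', i', b'⟩) hmem hadj
      · exact hR hadj.1
      · exact hR hadj.1

/-- If some assignment lies in no box, and two boxes constrain only one variable each, then the
graph is not equistable. -/
theorem not_equistable_boxGraph (A : I → D) (hA : ∀ j, ∃ i, ¬ R j i (A i))
    {j₁ j₂ : J} {i₁ i₂ : I} {d₁ d₂ : D} (hj : j₁ ≠ j₂) (hi : i₁ ≠ i₂)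
    (h1 : R j₁ i₁ d₁) (h2 : R j₂ i₂ d₂)
    (h1' : ∀ i, i ≠ i₁ → ∀ b, R j₁ i b) (h2' : ∀ i, i ≠ i₂ → ∀ b, R j₂ i b) :
    ¬ Equistable (boxGraph R) := by
  classical
  intro hG
  set S : Finset ((I × D) ⊕ (J × I × D)) := Finset.univ.filter (fun v =>
    (∃ i, v = Sum.inl (i, A i)) ∨ ∃ j i b, ¬ R j i b ∧ v = Sum.inr (j, i, b)) with hSdef
  have hmemS : ∀ v, v ∈ S ↔ ((∃ i, v = Sum.inl (i, A i)) ∨
      ∃ j i b, ¬ R j i b ∧ v = Sum.inr (j, i, b)) := by
    intro v
    simp [hSdef]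
  have hst : Stable (boxGraph R) S := by
    intro u hu v hv hadj
    rw [hmemS] at hu hv
    rcases hu with ⟨i, rfl⟩ | ⟨j, i, b, hR, rfl⟩
    · rcases hv with ⟨i', rfl⟩ | ⟨j', i', b', hR', rfl⟩
      · obtain ⟨h, h'⟩ := hadj
        exact h' (by rw [h])
      · exact hR' hadj.1
    · rcases hv with ⟨i', rfl⟩ | ⟨j', i', b', hR', rfl⟩
      · exact hR hadj.1
      · exact hR hadj.1
  have hmax : MaximalStable (boxGraph R) S := by
    refine ⟨hst, ?_⟩
    intro T hT hlt
    obtain ⟨v, hvT, hvS⟩ := Finset.exists_of_ssubset hlt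
    have hsub : ∀ i, Sum.inl (i, A i) ∈ T := fun i =>
      hlt.subset ((hmemS _).2 (Or.inl ⟨i, rfl⟩))
    rcases v with ⟨i, b⟩ | ⟨j, i, b⟩
    · have hb : b ≠ A i := by
        rintro rfl
        exact hvS ((hmemS _).2 (Or.inl ⟨i, rfl⟩))
      exact hT _ hvT _ (hsub i) ⟨rfl, hb⟩
    · have hR : R j i b := by
        by_contra hR
        exact hvS ((hmemS _).2 (Or.inr ⟨j, i, b, hR, rfl⟩))
      obtain ⟨i', hi'⟩ := hA j
      exact hT _ hvT _ (hsub i') ⟨hR, Or.inl hi'⟩
  have hu : (Sum.inr (j₁, i₁, d₁) : (I × D) ⊕ (J × I × D)) ∉ S := by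
    rw [hmemS]
    rintro (⟨i, hi⟩ | ⟨j, i, b, hR, h⟩)
    · exact absurd hi (by simp)
    · simp only [Sum.inr.injEq, Prod.mk.injEq] at h
      obtain ⟨rfl, rfl, rfl⟩ := h
      exact hR h1
  have hv : (Sum.inr (j₂, i₂, d₂) : (I × D) ⊕ (J × I × D)) ∉ S := by
    rw [hmemS]
    rintro (⟨i, hi⟩ | ⟨j, i, b, hR, h⟩)
    · exact absurd hi (by simp)
    · simp only [Sum.inr.injEq, Prod.mk.injEq] at h
      obtain ⟨rfl, rfl, rfl⟩ := h
      exact hR h2
  have huv : boxAdj R (Sum.inr (j₁, i₁, d₁)) (Sum.inr (j₂, i₂, d₂)) := ⟨h1, h2, Or.inl hj⟩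
  obtain ⟨s, hs, hus, hvs⟩ := hG.triangle hmax hu hv huv
  rw [hmemS] at hs
  rcases hs with ⟨i, rfl⟩ | ⟨j, i, b, hR, rfl⟩
  · have e1 : i = i₁ := by
      by_contra hne
      rcases hus.2 with h | h
      · exact h (h1' i hne _)
      · exact hne h.1
    have e2 : i = i₂ := by
      by_contra hne
      rcases hvs.2 with h | h
      · exact h (h2' i hne _)
      · exact hne h.1
    exact hi (e1.symm.trans e2)
  · exact hR hus.2.1

end

end Pool.Agent.Lib.MP_117856_lc
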