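import Mathlib
import Pool.Prelude.Def_F_458e953d
import Pool.Agent.Lib.MP_117856_lc.BoxGraph

/-!
The decision problem EQUISTABLE.
-/

namespace Pool.Agent.Lib.MP_117856_lc

open N68a2faeb

/-- The bit string encoding the adjacency matrix of a graph with vertex set `Fin n`
(the matrix is a list of `n` lists of `n` bits). -/
noncomputable def encodeGraph {n : ℕ} (G : SimpleGraph (Fin n)) : List Bool :=
  open scoped Classical in
  N487b59b3.bitEncode (List.ofFn fun i => List.ofFn fun j => decide (G.Adj i j))

/-- The decision problem EQUISTABLE: does the input encode an equistable graph? -/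
noncomputable def EQUISTABLE : DecisionProblem := fun s =>
  open scoped Classical in
  decide (∃ (n : ℕ) (G : SimpleGraph (Fin n)), s = encodeGraph G ∧ Equistable G)

theorem bitEncode_injective' {α : Type} [N487b59b3 α] :
    Function.Injective (N487b59b3.bitEncode : α → List Bool) :=
  N487b59b3.bitEncode_injective

theorem encodeGraph_injective {n m : ℕ} (G : SimpleGraph (Fin n)) (H : SimpleGraph (Fin m))
    (h : encodeGraph G = encodeGraph H) : ∃ e : n = m, e ▸ G = H := by
  classical
  unfold encodeGraph at h
  have h1 := bitEncode_injective' h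
  have hlen : n = m := by
    have := congrArg List.length h1
    simpa using this
  subst hlen
  refine ⟨rfl, ?_⟩
  have h2 := List.ofFn_injective h1
  ext i j
  have h3 := List.ofFn_injective (congrFun h2 i)
  have h4 := congrFun h3 j
  simpa using h4

theorem EQUISTABLE_encodeGraph {n : ℕ} (G : SimpleGraph (Fin n)) :
    EQUISTABLE (encodeGraph G) = true ↔ Equistable G := by
  classical
  unfold EQUISTABLE
  rw [decide_eq_true_eq]
  constructor
  · rintro ⟨m, H, h, hH⟩
    obtain ⟨rfl, rfl⟩ := encodeGraph_injective G H h
    exact hH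
  · intro h
    exact ⟨n, G, rfl, h⟩

/-- Equistability is invariant under isomorphisms. -/
theorem Equistable.of_iso {V W : Type*} [Fintype V] [Fintype W] {G : SimpleGraph V}
    {H : SimpleGraph W} (e : G ≃g H) (hG : Equistable G) : Equistable H := by
  classical
  obtain ⟨t, w, ht, hw⟩ := hG
  refine ⟨t, fun x => w (e.symm x), ht, ?_⟩
  intro S
  have hst : ∀ T : Finset W, Stable H T ↔ Stable G (T.map e.symm.toEquiv.toEmbedding) := by
    intro T
    constructor
    · intro hT u hu v hv hadj
      rw [Finset.mem_map] at hu hv
      obtain ⟨x, hx, rfl⟩ := hu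
      obtain ⟨y, hy, rfl⟩ := hv
      exact hT x hx y hy (e.symm.map_rel_iff.1 hadj)
    · intro hT u hu v hv hadj
      refine hT (e.symm u) (Finset.mem_map.2 ⟨u, hu, rfl⟩) (e.symm v)
        (Finset.mem_map.2 ⟨v, hv, rfl⟩) ?_
      exact e.symm.map_rel_iff.2 hadj
  have hmax : MaximalStable H S ↔ MaximalStable G (S.map e.symm.toEquiv.toEmbedding) := by
    constructor
    · rintro ⟨h1, h2⟩
      refine ⟨(hst S).1 h1, ?_⟩
      intro T hT hlt
      refine h2 (T.map e.toEquiv.toEmbedding) ?_ ?_
      · rw [hst, Finset.map_map]
        convert hT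
        ext x
        simp
      · rw [Finset.ssubset_iff_subset_ne] at hlt ⊢
        constructor
        · intro x hx
          rw [Finset.mem_map]
          exact ⟨e.symm x, hlt.1 (Finset.mem_map.2 ⟨x, hx, rfl⟩), by simp⟩
        · rintro rfl
          apply hlt.2
          ext x
          simp only [Finset.mem_map_equiv]
          exact iff_of_eq (congrArg (· ∈ T) (e.symm.apply_symm_apply x))
    · rintro ⟨h1, h2⟩
      refine ⟨(hst S).2 h1, ?_⟩
      intro T hT hlt
      refine h2 (T.map e.symm.toEquiv.toEmbedding) ((hst T).1 hT) ?_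
      rw [Finset.ssubset_iff_subset_ne] at hlt ⊢
      constructor
      · exact Finset.map_subset_map.2 hlt.1
      · intro h
        exact hlt.2 (Finset.map_injective _ h)
  rw [hmax, hw, Finset.sum_map]
  rfl

theorem equistable_iff_of_iso {V W : Type*} [Fintype V] [Fintype W] {G : SimpleGraph V}
    {H : SimpleGraph W} (e : G ≃g H) : Equistable G ↔ Equistable H :=
  ⟨Equistable.of_iso e, Equistable.of_iso e.symm⟩

end Pool.Agent.Lib.MP_117856_lc
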