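import Mathlib
import Pool.Agent.Lib.MP_117856_lc.Problem
import Pool.Agent.Lib.PolyTime.Tableau
import Pool.Agent.Lib.PolyTime.Loop

/-!
Tableaux as uncovered assignments of a family of boxes.
-/

namespace Pool.Agent.Lib.MP_117856_lc

open Pool.Agent.Lib.PolyTime

section

variable (M : Flat) (kin : M.K) (q₀ : M.Q) (sy : Bool → M.A)
  (acc : M.Q → (M.K → Option M.A) → Prop)

/-- Rules: possible contents of the five cells in the scope of a constraint. -/
abbrev Rule : Type := Option (M.Cell × M.Cell × M.Cell × M.Cell × M.Cell)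

/-- The boxes, in terms of the relative position of the constraint and the cell: `sT`, `sP`:
same row, same column; `nT`, `nP`: the cell is in the next row, in the next column; `c0`: the
cell is in the first column. -/
def Rcore (t0 tL p0 pL : Bool) (z : ZSym) (r : Rule M) (sT sP nT nP c0 : Bool)
    (b : Option M.Cell) : Prop :=
  match b with
  | none => True
  | some d =>
    match r with
    | none => ¬ (sT = true ∧ sP = true)
    | some (d0, d1, d2, d3, d4) =>
      (Good M kin q₀ sy acc t0 tL p0 pL z d0 d1 d2 d3 d4 → ¬ (sT = true ∧ sP = true)) ∧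
      (¬ Good M kin q₀ sy acc t0 tL p0 pL z d0 d1 d2 d3 d4 →
        (sT = true → c0 = true → d = d0) ∧ (sT = true → sP = true → d = d1) ∧
        (sT = true → nP = true → d = d2) ∧ (nT = true → sP = true → d = d3) ∧
        (nT = true → nP = true → d = d4))

/-- The boxes, with positions as natural numbers. -/
def Rn (Z : List ZSym) (tj pj : ℕ) (r : Rule M) (ti pi : ℕ) (b : Option M.Cell) : Prop :=
  Rcore M kin q₀ sy acc (decide (tj = 0)) (decide (tj + 1 = Z.length)) (decide (pj = 0))
    (decide (pj + 1 = Z.length)) (Z[pj]?).join r (decide (ti = tj)) (decide (pi = pj))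
    (decide (ti = tj + 1)) (decide (pi = pj + 1)) (decide (pi = 0)) b

/-- The boxes. -/
def RZ (Z : List ZSym) (j : Fin Z.length × Fin Z.length × Rule M)
    (i : Fin Z.length × Fin Z.length) (b : Option M.Cell) : Prop :=
  Rn M kin q₀ sy acc Z j.1 j.2.1 j.2.2 i.1 i.2 b

theorem Good.congr {t0 tL p0 pL : Bool} {z : ZSym} {d0 d1 d2 d3 d4 d2' d3' d4' : M.Cell}
    (h : Good M kin q₀ sy acc t0 tL p0 pL z d0 d1 d2 d3 d4)
    (h2 : pL = false → d2 = d2') (h3 : tL = false → d3 = d3')
    (h4 : tL = false → pL = false → d4 = d4') :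
    Good M kin q₀ sy acc t0 tL p0 pL z d0 d1 d2' d3' d4' := by
  obtain ⟨g1, g2, g3, g4, g5⟩ := h
  refine ⟨g1, ?_, g3, g4, ?_⟩
  · intro ht hp
    rw [← h2 hp]
    exact g2 ht hp
  · intro ht
    obtain ⟨g6, g7⟩ := g5 ht
    refine ⟨?_, ?_⟩
    · rw [← h3 ht]
      exact g6
    · intro k
      obtain ⟨g8, g9, g10⟩ := g7 k
      refine ⟨?_, ?_, ?_⟩
      · rw [← h3 ht]
        exact g8
      · intro hop hp
        rw [← h3 ht, ← h2 hp]
        exact g9 hop hp
      · intro a hop hp
        rw [← h4 ht hp]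
        exact g10 a hop hp

theorem uncovered_iff_tab (Z : List ZSym) :
    (∃ A : Fin Z.length × Fin Z.length → Option M.Cell,
      ∀ j, ∃ i, ¬ RZ M kin q₀ sy acc Z j i (A i)) ↔ ∃ A, Tab M kin q₀ sy acc Z A := by
  classical
  constructor
  · rintro ⟨A, hA⟩
    have hsome : ∀ i, ∃ d, A i = some d := by
      rintro ⟨t, p⟩
      obtain ⟨⟨t', p'⟩, hi⟩ := hA (t, p, none)
      simp only [RZ, Rn, Rcore] at hi
      rcases hAi : A (t', p') with _ | d
      · rw [hAi] at hi
        exact absurd trivial hi
      · rw [hAi] at hi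
        simp only [decide_eq_true_eq, not_not] at hi
        have e1 : t' = t := Fin.ext hi.1
        have e2 : p' = p := Fin.ext hi.2
        subst e1 e2
        exact ⟨d, hAi⟩
    choose A' hA' using hsome
    let d₀ : M.Cell := (q₀, fun _ => none)
    let B : ℕ → ℕ → M.Cell := fun t p =>
      if h : t < Z.length ∧ p < Z.length then A' (⟨t, h.1⟩, ⟨p, h.2⟩) else d₀
    have hB : ∀ i : Fin Z.length × Fin Z.length, A i = some (B i.1 i.2) := by
      rintro ⟨t, p⟩
      rw [hA']
      simp only [B]
      rw [dif_pos ⟨t.2, p.2⟩]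
    refine ⟨B, ?_⟩
    intro t ht p hp
    by_contra hbad
    obtain ⟨⟨t', p'⟩, hi⟩ := hA (⟨t, ht⟩, ⟨p, hp⟩,
      some (B t 0, B t p, B t (p + 1), B (t + 1) p, B (t + 1) (p + 1)))
    apply hi
    rw [hB]
    simp only [RZ, Rn, Rcore]
    refine ⟨fun h => absurd h hbad, fun _ => ⟨?_, ?_, ?_, ?_, ?_⟩⟩
    · intro h1 h2
      rw [decide_eq_true_eq] at h1 h2
      rw [h1, h2]
    · intro h1 h2
      rw [decide_eq_true_eq] at h1 h2
      rw [h1, h2]
    · intro h1 h2
      rw [decide_eq_true_eq] at h1 h2
      rw [h1, h2]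
    · intro h1 h2
      rw [decide_eq_true_eq] at h1 h2
      rw [h1, h2]
    · intro h1 h2
      rw [decide_eq_true_eq] at h1 h2
      rw [h1, h2]
  · rintro ⟨B, hB⟩
    refine ⟨fun i => some (B i.1 i.2), ?_⟩
    rintro ⟨t, p, r⟩
    rcases r with _ | ⟨d0, d1, d2, d3, d4⟩
    · refine ⟨(t, p), ?_⟩
      simp [RZ, Rn, Rcore]
    · by_cases hg : Good M kin q₀ sy acc (decide ((t : ℕ) = 0)) (decide ((t : ℕ) + 1 = Z.length))
        (decide ((p : ℕ) = 0)) (decide ((p : ℕ) + 1 = Z.length)) (Z[(p : ℕ)]?).join d0 d1 d2 d3 d4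
      · refine ⟨(t, p), ?_⟩
        simp only [RZ, Rn, Rcore]
        intro h
        exact h.1 hg (by simp)
      · by_contra hcon
        push Not at hcon
        have hcon' : ∀ t' p' : ℕ, t' < Z.length → p' < Z.length →
            (decide (t' = (t : ℕ)) = true → decide (p' = 0) = true → B t' p' = d0) ∧
            (decide (t' = (t : ℕ)) = true → decide (p' = (p : ℕ)) = true → B t' p' = d1) ∧
            (decide (t' = (t : ℕ)) = true → decide (p' = (p : ℕ) + 1) = true → B t' p' = d2) ∧
            (decide (t' = (t : ℕ) + 1) = true → decide (p' = (p : ℕ)) = true → B t' p' = d3) ∧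
            (decide (t' = (t : ℕ) + 1) = true → decide (p' = (p : ℕ) + 1) = true →
              B t' p' = d4) := by
          intro t' p' ht' hp'
          exact (hcon (⟨t', ht'⟩, ⟨p', hp'⟩)).2 hg
        have hpos : 0 < Z.length := lt_of_le_of_lt (Nat.zero_le _) t.2
        have e0 : B t 0 = d0 := (hcon' t 0 t.2 hpos).1 (by simp) (by simp)
        have e1 : B t p = d1 := (hcon' t p t.2 p.2).2.1 (by simp) (by simp)
        apply hg
        have h := hB t t.2 p p.2
        rw [e0, e1] at h
        refine Good.congr M kin q₀ sy acc h ?_ ?_ ?_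
        · intro hpL
          have hpL' : ¬ (p : ℕ) + 1 = Z.length := by simpa using hpL
          exact (hcon' t (p + 1) t.2 (by omega)).2.2.1 (by simp) (by simp)
        · intro htL
          have htL' : ¬ (t : ℕ) + 1 = Z.length := by simpa using htL
          exact (hcon' (t + 1) p (by omega) p.2).2.2.2.1 (by simp) (by simp)
        · intro htL hpL
          have hpL' : ¬ (p : ℕ) + 1 = Z.length := by simpa using hpL
          have htL' : ¬ (t : ℕ) + 1 = Z.length := by simpa using htL
          exact (hcon' (t + 1) (p + 1) (by omega) (by omega)).2.2.2.2 (by simp) (by simp)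

/-- The graph of a template. -/
def tabGraph (Z : List ZSym) :
    SimpleGraph (((Fin Z.length × Fin Z.length) × Option M.Cell) ⊕
      ((Fin Z.length × Fin Z.length × Rule M) × (Fin Z.length × Fin Z.length) ×
        Option M.Cell)) :=
  boxGraph (RZ M kin q₀ sy acc Z)

/-- The graph of a template is equistable iff there is no accepting tableau. -/
theorem equistable_tabGraph (Z : List ZSym) (hZ : 2 ≤ Z.length) :
    Equistable (tabGraph M kin q₀ sy acc Z) ↔ ¬ ∃ A, Tab M kin q₀ sy acc Z A := by
  classical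
  rw [← uncovered_iff_tab]
  constructor
  · rintro hG ⟨A, hA⟩
    let z0 : Fin Z.length := ⟨0, by omega⟩
    let z1 : Fin Z.length := ⟨1, by omega⟩
    have hne : z0 ≠ z1 := by
      intro h
      have := congrArg Fin.val h
      simp [z0, z1] at this
    refine not_equistable_boxGraph (RZ M kin q₀ sy acc Z) A hA (j₁ := (z0, z0, none))
      (j₂ := (z0, z1, none)) (i₁ := (z0, z0)) (i₂ := (z0, z1)) (d₁ := none) (d₂ := none)
      ?_ ?_ trivial trivial ?_ ?_ hG
    · intro h
      simp only [Prod.mk.injEq, true_and, and_true] at h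
      exact hne h
    · intro h
      simp only [Prod.mk.injEq, true_and] at h
      exact hne h
    · rintro ⟨t, p⟩ hi b
      rcases b with _ | d
      · trivial
      · simp only [RZ, Rn, Rcore, decide_eq_true_eq]
        rintro ⟨h1, h2⟩
        exact hi (by rw [Fin.ext h1, Fin.ext h2])
    · rintro ⟨t, p⟩ hi b
      rcases b with _ | d
      · trivial
      · simp only [RZ, Rn, Rcore, decide_eq_true_eq]
        rintro ⟨h1, h2⟩
        exact hi (by rw [Fin.ext h1, Fin.ext h2])
  · intro h
    have : Nonempty (Fin Z.length × Fin Z.length) := ⟨(⟨0, by omega⟩, ⟨0, by omega⟩)⟩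
    refine equistable_boxGraph_of_cover _ (fun j i => ⟨none, trivial⟩) ?_
    intro A
    by_contra hcon
    push Not at hcon
    exact h ⟨A, hcon⟩

end

end Pool.Agent.Lib.MP_117856_lc
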