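import Mathlib
import Pool.Agent.Lib.MP_117856_lc.TabBox

/-!
The encoding of the graph of a template is computable from the template in polynomial time.
-/

namespace Pool.Agent.Lib.MP_117856_lc

open Pool.Agent.Lib.PolyTime

section Lists

theorem finRange_flatMap {B : Type} (n : ℕ) (g : ℕ → List B) :
    (List.finRange n).flatMap (fun i : Fin n => g i.val) = (List.range n).flatMap g := by
  rw [List.flatMap_def, List.flatMap_def]
  congr 1
  apply List.ext_getElem
  · simp
  · intro i h1 h2
    simp

/-- The bits describing an entry of the adjacency matrix. -/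
def bitOut (b : Bool) : List Bool := [true, true, true, b, true, false]

theorem bitEncode_bool (b : Bool) : N487b59b3.bitEncode b = [b] := rfl

theorem bitEncode_list {α : Type} [N487b59b3 α] (l : List α) :
    N487b59b3.bitEncode l = l.flatMap (fun a => N487b59b3.delimit (N487b59b3.bitEncode a)) := by
  change ((l.map N487b59b3.bitEncode).map N487b59b3.delimit).flatten = _
  rw [List.flatMap_def, List.map_map]
  rfl

theorem delimit_append (l l' : List Bool) :
    N487b59b3.delimit (l ++ l') = l.flatMap (fun b => [true, b]) ++ N487b59b3.delimit l' := by
  induction l with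
  | nil => rfl
  | cons b l ih =>
    simp [N487b59b3.delimit, ih]

theorem delimit_eq (l : List Bool) :
    N487b59b3.delimit l = l.flatMap (fun b => [true, b]) ++ [false] := by
  have := delimit_append l []
  rw [List.append_nil] at this
  exact this

theorem bitEncode_matrix (M : List (List Bool)) :
    N487b59b3.bitEncode M = M.flatMap (fun r => r.flatMap bitOut ++ [false]) := by
  rw [bitEncode_list]
  rw [List.flatMap_def, List.flatMap_def]
  congr 1
  apply List.map_congr_left
  intro r _
  rw [bitEncode_list, delimit_eq, List.flatMap_assoc]
  congr 1

end Lists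

section

variable (M : Flat) (kin : M.K) (q₀ : M.Q) (sy : Bool → M.A)
  (acc : M.Q → (M.K → Option M.A) → Prop)

/-- Vertices of the graph. -/
abbrev Vert (n : ℕ) : Type :=
  ((Fin n × Fin n) × Option M.Cell) ⊕ ((Fin n × Fin n × Rule M) × (Fin n × Fin n) × Option M.Cell)

/-- All values of a variable. -/
noncomputable def valList : List (Option M.Cell) := Finset.univ.toList

/-- All rules. -/
noncomputable def ruleList : List (Rule M) := Finset.univ.toList

/-- The list of all vertices. -/
noncomputable def vlist (n : ℕ) : List (Vert M n) :=
  ((List.finRange n).flatMap fun t => (List.finRange n).flatMap fun p =>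
    (valList M).map fun b => Sum.inl ((t, p), b)) ++
  ((List.finRange n).flatMap fun tj => (List.finRange n).flatMap fun pj =>
    (ruleList M).flatMap fun r => (List.finRange n).flatMap fun ti =>
      (List.finRange n).flatMap fun pi => (valList M).map fun b =>
        Sum.inr ((tj, pj, r), (ti, pi), b))

theorem mem_vlist (n : ℕ) (v : Vert M n) : v ∈ vlist M n := by
  rcases v with ⟨⟨t, p⟩, b⟩ | ⟨⟨tj, pj, r⟩, ⟨ti, pi⟩, b⟩
  · simp [vlist, valList]
  · simp [vlist, valList, ruleList]

theorem nodup_flatMap_aux {α β γ : Type} (l : List α) (hl : l.Nodup) (f : α → List β)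
    (hf : ∀ a, (f a).Nodup) (g : β → γ) (g' : α → γ) (hg : ∀ a, ∀ b ∈ f a, g b = g' a)
    (hg' : Function.Injective g') : (l.flatMap f).Nodup := by
  rw [List.nodup_flatMap]
  refine ⟨fun a _ => hf a, ?_⟩
  refine hl.imp ?_
  intro a a' hne
  simp only [Function.onFun]
  rw [List.disjoint_left]
  intro b hb hb'
  exact hne (hg' ((hg a b hb).symm.trans (hg a' b hb')))

theorem nodup_vlist (n : ℕ) : (vlist M n).Nodup := by
  have hval : (valList M).Nodup := Finset.nodup_toList _
  have hrule : (ruleList M).Nodup := Finset.nodup_toList _
  have hfin : (List.finRange n).Nodup := List.nodup_finRange n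
  rw [vlist, List.nodup_append']
  refine ⟨?_, ?_, ?_⟩
  · refine nodup_flatMap_aux _ hfin _ (fun t => ?_)
      (fun v => match v with
        | Sum.inl ((t, _), _) => some t
        | Sum.inr _ => none) (fun t => some t) ?_ (Option.some_injective _)
    · refine nodup_flatMap_aux _ hfin _ (fun p => ?_)
        (fun v => match v with
          | Sum.inl ((_, p), _) => some p
          | Sum.inr _ => none) (fun p => some p) ?_ (Option.some_injective _)
      · refine hval.map ?_
        intro b b' h
        simpa using h
      · intro p v hv
        rw [List.mem_map] at hv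
        obtain ⟨b, -, rfl⟩ := hv
        rfl
    · intro t v hv
      rw [List.mem_flatMap] at hv
      obtain ⟨p, -, hv⟩ := hv
      rw [List.mem_map] at hv
      obtain ⟨b, -, rfl⟩ := hv
      rfl
  · refine nodup_flatMap_aux _ hfin _ (fun tj => ?_)
      (fun v => match v with
        | Sum.inl _ => none
        | Sum.inr ((tj, _, _), _, _) => some tj) (fun t => some t) ?_ (Option.some_injective _)
    · refine nodup_flatMap_aux _ hfin _ (fun pj => ?_)
        (fun v => match v with
          | Sum.inl _ => none
          | Sum.inr ((_, pj, _), _, _) => some pj) (fun t => some t) ?_ (Option.some_injective _)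
      · refine nodup_flatMap_aux _ hrule _ (fun r => ?_)
          (fun v => match v with
            | Sum.inl _ => none
            | Sum.inr ((_, _, r), _, _) => some r) (fun t => some t) ?_ (Option.some_injective _)
        · refine nodup_flatMap_aux _ hfin _ (fun ti => ?_)
            (fun v => match v with
              | Sum.inl _ => none
              | Sum.inr (_, (ti, _), _) => some ti) (fun t => some t) ?_
              (Option.some_injective _)
          · refine nodup_flatMap_aux _ hfin _ (fun pi => ?_)
              (fun v => match v with
                | Sum.inl _ => none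
                | Sum.inr (_, (_, pi), _) => some pi) (fun t => some t) ?_
                (Option.some_injective _)
            · refine hval.map ?_
              intro b b' h
              simpa using h
            · intro p v hv
              rw [List.mem_map] at hv
              obtain ⟨b, -, rfl⟩ := hv
              rfl
          · intro t v hv
            rw [List.mem_flatMap] at hv
            obtain ⟨p, -, hv⟩ := hv
            rw [List.mem_map] at hv
            obtain ⟨b, -, rfl⟩ := hv
            rfl
        · intro t v hv
          rw [List.mem_flatMap] at hv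
          obtain ⟨p, -, hv⟩ := hv
          rw [List.mem_flatMap] at hv
          obtain ⟨p, -, hv⟩ := hv
          rw [List.mem_map] at hv
          obtain ⟨b, -, rfl⟩ := hv
          rfl
      · intro t v hv
        rw [List.mem_flatMap] at hv
        obtain ⟨p, -, hv⟩ := hv
        rw [List.mem_flatMap] at hv
        obtain ⟨p, -, hv⟩ := hv
        rw [List.mem_flatMap] at hv
        obtain ⟨p, -, hv⟩ := hv
        rw [List.mem_map] at hv
        obtain ⟨b, -, rfl⟩ := hv
        rfl
    · intro t v hv
      rw [List.mem_flatMap] at hv
      obtain ⟨p, -, hv⟩ := hv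
      rw [List.mem_flatMap] at hv
      obtain ⟨p, -, hv⟩ := hv
      rw [List.mem_flatMap] at hv
      obtain ⟨p, -, hv⟩ := hv
      rw [List.mem_flatMap] at hv
      obtain ⟨p, -, hv⟩ := hv
      rw [List.mem_map] at hv
      obtain ⟨b, -, rfl⟩ := hv
      rfl
  · rw [List.disjoint_left]
    intro v hv hv'
    rw [List.mem_flatMap] at hv hv'
    obtain ⟨p, -, hv⟩ := hv
    rw [List.mem_flatMap] at hv
    obtain ⟨p, -, hv⟩ := hv
    rw [List.mem_map] at hv
    obtain ⟨b, -, rfl⟩ := hv
    obtain ⟨p, -, hv⟩ := hv'
    rw [List.mem_flatMap] at hv
    obtain ⟨p, -, hv⟩ := hv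
    rw [List.mem_flatMap] at hv
    obtain ⟨p, -, hv⟩ := hv
    rw [List.mem_flatMap] at hv
    obtain ⟨p, -, hv⟩ := hv
    rw [List.mem_flatMap] at hv
    obtain ⟨p, -, hv⟩ := hv
    rw [List.mem_map] at hv
    obtain ⟨b, -, h⟩ := hv
    exact absurd h (by simp)

/-- The graph of a template, on the vertex set `Fin n`. -/
noncomputable def outGraph (Z : List ZSym) : SimpleGraph (Fin (vlist M Z.length).length) :=
  (tabGraph M kin q₀ sy acc Z).comap (vlist M Z.length).get

theorem equistable_outGraph (Z : List ZSym) :
    Equistable (outGraph M kin q₀ sy acc Z) ↔ Equistable (tabGraph M kin q₀ sy acc Z) := by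
  classical
  let e : Fin (vlist M Z.length).length ≃ Vert M Z.length :=
    List.Nodup.getEquivOfForallMemList _ (nodup_vlist M _) (mem_vlist M _)
  have iso : outGraph M kin q₀ sy acc Z ≃g tabGraph M kin q₀ sy acc Z :=
    { toEquiv := e
      map_rel_iff' := by
        intro a b
        rfl }
  exact equistable_iff_of_iso iso

/-- The encoding of the graph, as a list of rows. -/
theorem encodeGraph_outGraph (Z : List ZSym) :
    open scoped Classical in
    encodeGraph (outGraph M kin q₀ sy acc Z) =
      (vlist M Z.length).flatMap (fun u => (vlist M Z.length).flatMap (fun v =>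
        bitOut (decide (boxAdj (RZ M kin q₀ sy acc Z) u v))) ++ [false]) := by
  classical
  unfold encodeGraph
  have h1 : (List.ofFn fun i => List.ofFn fun j =>
      @decide ((outGraph M kin q₀ sy acc Z).Adj i j) (Classical.propDecidable _)) =
      (vlist M Z.length).map (fun u => (vlist M Z.length).map
        (fun v => @decide (boxAdj (RZ M kin q₀ sy acc Z) u v) (Classical.propDecidable _))) := by
    apply List.ext_getElem
    · simp
    · intro i h1 h2
      rw [List.getElem_ofFn, List.getElem_map]
      apply List.ext_getElem
      · simp
      · intro j h3 h4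
        rw [List.getElem_ofFn, List.getElem_map]
        rfl
  rw [h1, bitEncode_matrix, List.flatMap_map]
  rw [List.flatMap_def, List.flatMap_def]
  congr 1
  apply List.map_congr_left
  intro u _
  rw [List.flatMap_map]

end

end Pool.Agent.Lib.MP_117856_lc
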