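import Mathlib
import Pool.Agent.Lib.MP_117856_lc.Output

/-!
The encoding of the graph of a template is computable from the template in polynomial time.
-/

namespace Pool.Agent.Lib.MP_117856_lc

open Pool.Agent.Lib.PolyTime

open scoped Classical in
/-- Classical decision. -/
noncomputable def dec (p : Prop) : Bool := decide p

theorem dec_congr {p q : Prop} (h : p ↔ q) : dec p = dec q := by
  rw [propext h]

section

variable (M : Flat) (kin : M.K) (q₀ : M.Q) (sy : Bool → M.A)
  (acc : M.Q → (M.K → Option M.A) → Prop)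

/-- The boxes, in terms of profiles. -/
def RP {k : ℕ} (q : Prof ZSym k) (a0 a1 a2 a3 : Fin k) (r : Rule M) (b : Option M.Cell) : Prop :=
  Rcore M kin q₀ sy acc (q.first a0) (q.last a0) (q.first a1) (q.last a1) (q.sym a1).join r
    (q.eq a2 a0) (q.eq a3 a1) (q.succ a0 a2) (q.succ a1 a3) (q.first a3) b

theorem RP_iff {k : ℕ} (Z : List ZSym) (idx : Fin k → ℕ) (h : ∀ m, idx m < Z.length)
    (a0 a1 a2 a3 : Fin k) (r : Rule M) (b : Option M.Cell) :
    RP M kin q₀ sy acc (prof Z idx) a0 a1 a2 a3 r b ↔
      Rn M kin q₀ sy acc Z (idx a0) (idx a1) r (idx a2) (idx a3) b := by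
  have hpos : 0 < Z.length := lt_of_le_of_lt (Nat.zero_le _) (h a0)
  simp only [RP, Rn, prof, h, hpos, and_true]

/-- Equality of positions, in terms of profiles. -/
theorem eqP_iff {k : ℕ} (Z : List ZSym) (idx : Fin k → ℕ) (h : ∀ m, idx m < Z.length)
    (a b : Fin k) : (prof Z idx).eq a b = true ↔ idx a = idx b := by
  simp [prof, h]

/-- Adjacency of two vertices of the first kind. -/
def adjAA (t p : ℕ) (b : Option M.Cell) (t' p' : ℕ) (b' : Option M.Cell) : Prop :=
  (t = t' ∧ p = p') ∧ b ≠ b'

/-- Adjacency of vertices of different kinds. -/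
def adjAD (Z : List ZSym) (t p : ℕ) (b : Option M.Cell) (tj pj : ℕ) (r : Rule M) (ti pi : ℕ)
    (b' : Option M.Cell) : Prop :=
  Rn M kin q₀ sy acc Z tj pj r ti pi b' ∧
    (¬ Rn M kin q₀ sy acc Z tj pj r t p b ∨ ((t = ti ∧ p = pi) ∧ b ≠ b'))

/-- Adjacency of two vertices of the second kind. -/
def adjDD (Z : List ZSym) (tj pj : ℕ) (r : Rule M) (ti pi : ℕ) (b : Option M.Cell)
    (tj' pj' : ℕ) (r' : Rule M) (ti' pi' : ℕ) (b' : Option M.Cell) : Prop :=
  Rn M kin q₀ sy acc Z tj pj r ti pi b ∧ Rn M kin q₀ sy acc Z tj' pj' r' ti' pi' b' ∧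
    (¬ ((tj = tj' ∧ pj = pj') ∧ r = r') ∨ ((ti = ti' ∧ pi = pi') ∧ b ≠ b'))

theorem leafAA (b b' : Option M.Cell) :
    LoopPoly (A := ZSym) 4 (fun _ => True) (fun _ idx =>
      bitOut (dec (adjAA M (idx 0) (idx 1) b (idx 2) (idx 3) b'))) := by
  refine (LoopPoly.out (fun q : Prof ZSym 4 => bitOut (dec
    ((q.eq 0 2 = true ∧ q.eq 1 3 = true) ∧ b ≠ b')))).congr ?_
  intro Z idx _ h
  rw [dec_congr]
  rw [adjAA, eqP_iff Z idx h, eqP_iff Z idx h]

theorem leafAD (b b' : Option M.Cell) (r : Rule M) :
    LoopPoly (A := ZSym) 6 (fun _ => True) (fun Z idx =>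
      bitOut (dec (adjAD M kin q₀ sy acc Z (idx 0) (idx 1) b (idx 2) (idx 3) r (idx 4) (idx 5)
        b'))) := by
  refine (LoopPoly.out (fun q : Prof ZSym 6 => bitOut (dec
    (RP M kin q₀ sy acc q 2 3 4 5 r b' ∧ (¬ RP M kin q₀ sy acc q 2 3 0 1 r b ∨
      ((q.eq 0 4 = true ∧ q.eq 1 5 = true) ∧ b ≠ b')))))).congr ?_
  intro Z idx _ h
  rw [dec_congr]
  rw [adjAD, eqP_iff Z idx h, eqP_iff Z idx h, RP_iff M kin q₀ sy acc Z idx h,
    RP_iff M kin q₀ sy acc Z idx h]

theorem leafDA (b b' : Option M.Cell) (r : Rule M) :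
    LoopPoly (A := ZSym) 6 (fun _ => True) (fun Z idx =>
      bitOut (dec (adjAD M kin q₀ sy acc Z (idx 4) (idx 5) b' (idx 0) (idx 1) r (idx 2) (idx 3)
        b))) := by
  refine (LoopPoly.out (fun q : Prof ZSym 6 => bitOut (dec
    (RP M kin q₀ sy acc q 0 1 2 3 r b ∧ (¬ RP M kin q₀ sy acc q 0 1 4 5 r b' ∨
      ((q.eq 4 2 = true ∧ q.eq 5 3 = true) ∧ b' ≠ b)))))).congr ?_
  intro Z idx _ h
  rw [dec_congr]
  rw [adjAD, eqP_iff Z idx h, eqP_iff Z idx h, RP_iff M kin q₀ sy acc Z idx h,
    RP_iff M kin q₀ sy acc Z idx h]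

theorem leafDD (b b' : Option M.Cell) (r r' : Rule M) :
    LoopPoly (A := ZSym) 8 (fun _ => True) (fun Z idx =>
      bitOut (dec (adjDD M kin q₀ sy acc Z (idx 0) (idx 1) r (idx 2) (idx 3) b
        (idx 4) (idx 5) r' (idx 6) (idx 7) b'))) := by
  refine (LoopPoly.out (fun q : Prof ZSym 8 => bitOut (dec
    (RP M kin q₀ sy acc q 0 1 2 3 r b ∧ RP M kin q₀ sy acc q 4 5 6 7 r' b' ∧
      (¬ ((q.eq 0 4 = true ∧ q.eq 1 5 = true) ∧ r = r') ∨
      ((q.eq 2 6 = true ∧ q.eq 3 7 = true) ∧ b ≠ b')))))).congr ?_
  intro Z idx _ h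
  rw [dec_congr]
  rw [adjDD, eqP_iff Z idx h, eqP_iff Z idx h, eqP_iff Z idx h, eqP_iff Z idx h,
    RP_iff M kin q₀ sy acc Z idx h, RP_iff M kin q₀ sy acc Z idx h]

/-- The row of a vertex of the first kind. -/
noncomputable def rowA (Z : List ZSym) (t p : ℕ) (b : Option M.Cell) : List Bool :=
  (((List.range Z.length).flatMap fun t' => (List.range Z.length).flatMap fun p' =>
    (valList M).flatMap fun b' => bitOut (dec (adjAA M t p b t' p' b'))) ++
  ((List.range Z.length).flatMap fun tj => (List.range Z.length).flatMap fun pj =>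
    (ruleList M).flatMap fun r => (List.range Z.length).flatMap fun ti =>
      (List.range Z.length).flatMap fun pi => (valList M).flatMap fun b' =>
        bitOut (dec (adjAD M kin q₀ sy acc Z t p b tj pj r ti pi b')))) ++ [false]

/-- The row of a vertex of the second kind. -/
noncomputable def rowD (Z : List ZSym) (tj pj : ℕ) (r : Rule M) (ti pi : ℕ)
    (b : Option M.Cell) : List Bool :=
  (((List.range Z.length).flatMap fun t' => (List.range Z.length).flatMap fun p' =>
    (valList M).flatMap fun b' => bitOut (dec (adjAD M kin q₀ sy acc Z t' p' b' tj pj r ti pi b)))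
    ++
  ((List.range Z.length).flatMap fun tj' => (List.range Z.length).flatMap fun pj' =>
    (ruleList M).flatMap fun r' => (List.range Z.length).flatMap fun ti' =>
      (List.range Z.length).flatMap fun pi' => (valList M).flatMap fun b' =>
        bitOut (dec (adjDD M kin q₀ sy acc Z tj pj r ti pi b tj' pj' r' ti' pi' b')))) ++ [false]

theorem loop_rowA (b : Option M.Cell) :
    LoopPoly (A := ZSym) 2 (fun _ => True) (fun Z idx =>
      rowA M kin q₀ sy acc Z (idx 0) (idx 1) b) := by
  refine LoopPoly.append (LoopPoly.append ?_ ?_) (LoopPoly.const [false])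
  · exact ((LoopPoly.listFlatMap (valList M) (fun b' => leafAA M b b')).loop).loop
  · have h1 := fun r => ((LoopPoly.listFlatMap (valList M)
      (fun b' => leafAD M kin q₀ sy acc b b' r)).loop).loop
    exact ((LoopPoly.listFlatMap (ruleList M) h1).loop).loop

theorem loop_rowD (b : Option M.Cell) (r : Rule M) :
    LoopPoly (A := ZSym) 4 (fun _ => True) (fun Z idx =>
      rowD M kin q₀ sy acc Z (idx 0) (idx 1) r (idx 2) (idx 3) b) := by
  refine LoopPoly.append (LoopPoly.append ?_ ?_) (LoopPoly.const [false])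
  · exact ((LoopPoly.listFlatMap (valList M)
      (fun b' => leafDA M kin q₀ sy acc b b' r)).loop).loop
  · have h1 := fun r' => ((LoopPoly.listFlatMap (valList M)
      (fun b' => leafDD M kin q₀ sy acc b b' r r')).loop).loop
    exact ((LoopPoly.listFlatMap (ruleList M) h1).loop).loop

/-- The whole output. -/
noncomputable def outList (Z : List ZSym) : List Bool :=
  ((List.range Z.length).flatMap fun t => (List.range Z.length).flatMap fun p =>
    (valList M).flatMap fun b => rowA M kin q₀ sy acc Z t p b) ++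
  ((List.range Z.length).flatMap fun tj => (List.range Z.length).flatMap fun pj =>
    (ruleList M).flatMap fun r => (List.range Z.length).flatMap fun ti =>
      (List.range Z.length).flatMap fun pi => (valList M).flatMap fun b =>
        rowD M kin q₀ sy acc Z tj pj r ti pi b)

theorem isPoly_outList : IsPoly (fun _ : List ZSym => True) (fun Z => Z)
    (fun Z => outList M kin q₀ sy acc Z) := by
  have h : LoopPoly (A := ZSym) 0 (fun _ => True) (fun Z _ => outList M kin q₀ sy acc Z) := by
    refine LoopPoly.append ?_ ?_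
    · exact ((LoopPoly.listFlatMap (valList M) (fun b => loop_rowA M kin q₀ sy acc b)).loop).loop
    · have h1 := fun r => ((LoopPoly.listFlatMap (valList M)
        (fun b => loop_rowD M kin q₀ sy acc b r)).loop).loop
      exact ((LoopPoly.listFlatMap (ruleList M) h1).loop).loop
  exact h.toIsPoly (fun m => m.elim0)

theorem rowA_eq (Z : List ZSym) (t p : Fin Z.length) (b : Option M.Cell) :
    rowA M kin q₀ sy acc Z t p b = (vlist M Z.length).flatMap (fun v =>
      bitOut (dec (boxAdj (RZ M kin q₀ sy acc Z) (Sum.inl ((t, p), b)) v))) ++ [false] := by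
  rw [rowA, vlist, List.flatMap_append]
  congr 1
  congr 1
  · rw [List.flatMap_assoc, ← finRange_flatMap]
    congr 1
    funext t'
    rw [List.flatMap_assoc, ← finRange_flatMap]
    congr 1
    funext p'
    rw [List.flatMap_map]
    congr 1
    funext b'
    rw [dec_congr]
    simp only [boxAdj, adjAA, Prod.mk.injEq, Fin.ext_iff]
  · rw [List.flatMap_assoc, ← finRange_flatMap]
    congr 1
    funext tj
    rw [List.flatMap_assoc, ← finRange_flatMap]
    congr 1
    funext pj
    rw [List.flatMap_assoc]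
    congr 1
    funext r
    rw [List.flatMap_assoc, ← finRange_flatMap]
    congr 1
    funext ti
    rw [List.flatMap_assoc, ← finRange_flatMap]
    congr 1
    funext pi
    rw [List.flatMap_map]
    congr 1
    funext b'
    rw [dec_congr]
    simp only [boxAdj, adjAD, RZ, Prod.mk.injEq, Fin.ext_iff]

theorem rowD_eq (Z : List ZSym) (tj pj : Fin Z.length) (r : Rule M) (ti pi : Fin Z.length)
    (b : Option M.Cell) :
    rowD M kin q₀ sy acc Z tj pj r ti pi b = (vlist M Z.length).flatMap (fun v =>
      bitOut (dec (boxAdj (RZ M kin q₀ sy acc Z) (Sum.inr ((tj, pj, r), (ti, pi), b)) v))) ++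
        [false] := by
  rw [rowD, vlist, List.flatMap_append]
  congr 1
  congr 1
  · rw [List.flatMap_assoc, ← finRange_flatMap]
    congr 1
    funext t'
    rw [List.flatMap_assoc, ← finRange_flatMap]
    congr 1
    funext p'
    rw [List.flatMap_map]
    congr 1
    funext b'
    rw [dec_congr]
    simp only [boxAdj, adjAD, RZ, Prod.mk.injEq, Fin.ext_iff]
  · rw [List.flatMap_assoc, ← finRange_flatMap]
    congr 1
    funext tj'
    rw [List.flatMap_assoc, ← finRange_flatMap]
    congr 1
    funext pj'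
    rw [List.flatMap_assoc]
    congr 1
    funext r'
    rw [List.flatMap_assoc, ← finRange_flatMap]
    congr 1
    funext ti'
    rw [List.flatMap_assoc, ← finRange_flatMap]
    congr 1
    funext pi'
    rw [List.flatMap_map]
    congr 1
    funext b'
    rw [dec_congr]
    simp only [boxAdj, adjDD, RZ, ne_eq, Prod.mk.injEq, Fin.ext_iff, and_assoc]

theorem encodeGraph_eq_outList (Z : List ZSym) :
    encodeGraph (outGraph M kin q₀ sy acc Z) = outList M kin q₀ sy acc Z := by
  rw [encodeGraph_outGraph]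
  change (vlist M Z.length).flatMap (fun u => (vlist M Z.length).flatMap (fun v =>
    bitOut (dec (boxAdj (RZ M kin q₀ sy acc Z) u v))) ++ [false]) = _
  rw [outList]
  conv_lhs => rw [vlist, List.flatMap_append]
  congr 1
  · rw [List.flatMap_assoc, ← finRange_flatMap]
    congr 1
    funext t
    rw [List.flatMap_assoc, ← finRange_flatMap]
    congr 1
    funext p
    rw [List.flatMap_map]
    congr 1
    funext b
    rw [rowA_eq]
    rfl
  · rw [List.flatMap_assoc, ← finRange_flatMap]
    congr 1
    funext tj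
    rw [List.flatMap_assoc, ← finRange_flatMap]
    congr 1
    funext pj
    rw [List.flatMap_assoc]
    congr 1
    funext r
    rw [List.flatMap_assoc, ← finRange_flatMap]
    congr 1
    funext ti
    rw [List.flatMap_assoc, ← finRange_flatMap]
    congr 1
    funext pi
    rw [List.flatMap_map]
    congr 1
    funext b
    rw [rowD_eq]
    rfl

/-- The encoding of the graph of a template is computable from the template in polynomial
time. -/
theorem isPoly_encodeGraph : IsPoly (fun _ : List ZSym => True) (fun Z => Z)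
    (fun Z => encodeGraph (outGraph M kin q₀ sy acc Z)) :=
  (isPoly_outList M kin q₀ sy acc).congr (fun Z _ => (encodeGraph_eq_outList M kin q₀ sy acc Z).symm)

end

end Pool.Agent.Lib.MP_117856_lc
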